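import Pool.Agent.Helper12_TRN.Stmts

set_option autoImplicit false

/-! The derivative of a tree network of width `r` is a tree network of width `r + r`. -/

namespace Pool.Agent.TRN.H33

open Pool.Agent.TRN

variable {E : Type*} [Field E] {N r : ℕ}

theorem vars_pderiv (i : Fin N) (p : MvPolynomial (Fin N) E) :
    (MvPolynomial.pderiv i p).vars ⊆ p.vars := by
  classical
  have key : ∀ q ∈ MvPolynomial.supported E ((p.vars : Finset (Fin N)) : Set (Fin N)),
      MvPolynomial.pderiv i q ∈
        MvPolynomial.supported E ((p.vars : Finset (Fin N)) : Set (Fin N)) := by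
    intro q hq
    unfold MvPolynomial.supported at hq
    induction hq using Algebra.adjoin_induction with
    | mem x hx =>
      obtain ⟨j, _, rfl⟩ := hx
      rw [MvPolynomial.pderiv_X]
      by_cases h : i = j
      · subst h
        rw [Pi.single_eq_same]
        exact one_mem _
      · rw [Pi.single_eq_of_ne (fun e => h e.symm)]
        exact zero_mem _
    | algebraMap c =>
      rw [MvPolynomial.algebraMap_eq, MvPolynomial.pderiv_C]
      exact zero_mem _
    | add x y _ _ hx hy =>
      rw [map_add]
      exact add_mem hx hy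
    | mul x y hx' hy' hx hy =>
      rw [MvPolynomial.pderiv_mul]
      exact add_mem (mul_mem hx hy') (mul_mem hx' hy)
  have h2 := MvPolynomial.mem_supported.mp (key p (MvPolynomial.mem_supported_vars p))
  exact Finset.coe_subset.mp h2

/-- the tensor of the derivative network -/
noncomputable def dT (i : Fin N) (T : Fin r → Fin r → Fin r → MvPolynomial (Fin N) E) :
    Fin (r + r) → Fin (r + r) → Fin (r + r) → MvPolynomial (Fin N) E :=
  Fin.addCases
    (fun c => Fin.addCases (fun a => Fin.addCases (fun b => T c a b) fun _ => 0) fun _ => 0)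
    (fun c => Fin.addCases
      (fun a => Fin.addCases (fun b => MvPolynomial.pderiv i (T c a b)) fun b => T c a b)
      (fun a => Fin.addCases (fun b => T c a b) fun _ => 0))

theorem tvars_dT (i : Fin N) (T : Fin r → Fin r → Fin r → MvPolynomial (Fin N) E) :
    tvars (dT i T) = tvars T := by
  classical
  apply Finset.Subset.antisymm
  · intro x hx
    simp only [tvars, Finset.mem_biUnion, Finset.mem_univ, true_and] at hx ⊢
    obtain ⟨c, a, b, h⟩ := hx
    revert h
    refine Fin.addCases (fun c => ?_) (fun c => ?_) c <;>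
      refine Fin.addCases (fun a => ?_) (fun a => ?_) a <;>
      refine Fin.addCases (fun b => ?_) (fun b => ?_) b <;>
      simp only [dT, Fin.addCases_left, Fin.addCases_right] <;> intro h
    · exact ⟨c, a, b, h⟩
    · simp at h
    · simp at h
    · simp at h
    · exact ⟨c, a, b, vars_pderiv i _ h⟩
    · exact ⟨c, a, b, h⟩
    · exact ⟨c, a, b, h⟩
    · simp at h
  · intro x hx
    simp only [tvars, Finset.mem_biUnion, Finset.mem_univ, true_and] at hx ⊢
    obtain ⟨c, a, b, h⟩ := hx
    refine ⟨Fin.castAdd r c, Fin.castAdd r a, Fin.castAdd r b, ?_⟩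
    simpa only [dT, Fin.addCases_left] using h

theorem der_aux (i : Fin N) (t : Tree E N r) : ∃ t' : Tree E N (r + r),
    t'.nodes = t.nodes ∧ t'.rank = t.rank ∧ (∀ c, t'.val (Fin.castAdd r c) = t.val c) ∧
      ∀ c, t'.val (Fin.natAdd r c) = MvPolynomial.pderiv i (t.val c) := by
  induction t with
  | leaf v =>
    refine ⟨Tree.leaf (Fin.addCases v fun _ => 0), rfl, rfl, ?_, ?_⟩
    · intro c
      simp only [Tree.val, Fin.addCases_left]
    · intro c
      simp only [Tree.val, Fin.addCases_right, MvPolynomial.pderiv_C, map_zero]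
  | node T L R ihL ihR =>
    obtain ⟨L', l1, l2, l3, l4⟩ := ihL
    obtain ⟨R', r1, r2, r3, r4⟩ := ihR
    refine ⟨Tree.node (dT i T) L' R', ?_, ?_, ?_, ?_⟩
    · simp only [Tree.nodes, tvars_dT, l1, r1]
    · simp only [Tree.rank, tvars_dT, l2, r2]
    · intro c
      simp only [Tree.val, Fin.sum_univ_add, dT, Fin.addCases_left, Fin.addCases_right, l3, r3,
        Pi.zero_apply, zero_mul, Finset.sum_const_zero, add_zero]
    · intro c
      simp only [Tree.val, Fin.sum_univ_add, dT, Fin.addCases_left, Fin.addCases_right, l3, r3,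
        l4, r4, zero_mul, Finset.sum_const_zero, add_zero, map_sum, MvPolynomial.pderiv_mul]
      rw [← Finset.sum_add_distrib]
      apply Finset.sum_congr rfl
      intro a _
      rw [← Finset.sum_add_distrib, ← Finset.sum_add_distrib]
      apply Finset.sum_congr rfl
      intro b _
      ring

/-- DER. -/
theorem der : DerStmt := by
  intro E _ N r t i
  obtain ⟨t', h1, h2, _, h4⟩ := der_aux i t
  exact ⟨t', h1, h2, h4⟩

end Pool.Agent.TRN.H33
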